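import Pool.Agent.Ins65.KCut

/-!
# The maximum 8-cut of a 7-connected graph can be smaller than the Bollobas-Scott bound by n/96

For every `N ≥ 1` there is a 7-connected graph on `12 N` vertices whose largest 8-partite subgraph
has at most `(7/8) m + (7/16) n - n/96` edges.
-/

set_option autoImplicit false

namespace Pool.Agent.Results.MP_1d7c98_co.CliqueChain

open Pool.Agent.Ins65.KCut

/-- `G` is `k`-connected: it has more than `k` vertices and stays connected after deleting any set
of fewer than `k` vertices. -/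
def KConnected {V : Type*} [Fintype V] (k : ℕ) (G : SimpleGraph V) : Prop :=
  k < Fintype.card V ∧
    ∀ S : Finset V, S.card < k → (G.induce {v : V | v ∉ S}).Connected

/-- the number of edges of `G` joining two different classes of the partition `c` -/
noncomputable def cutEdges {V : Type*} {k : ℕ} (G : SimpleGraph V) (c : V → Fin k) : ℕ :=
  Set.ncard {e : Sym2 V | ∃ u v : V, e = s(u, v) ∧ G.Adj u v ∧ c u ≠ c v}

/-- the largest number of edges of a `k`-partite subgraph of `G`: the maximum over all partitions of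
the vertex set into `k` (possibly empty) classes of the number of edges between different classes -/
noncomputable def maxCut {V : Type*} [Fintype V] [DecidableEq V] (k : ℕ) (G : SimpleGraph V) : ℕ :=
  Finset.univ.sup fun c : V → Fin k => cutEdges G c

/-- number of edges -/
noncomputable def edges {V : Type*} (G : SimpleGraph V) : ℕ := G.edgeSet.ncard

lemma two_cut {n : ℕ} (G : SimpleGraph (Fin n)) [DecidableRel G.Adj] (c : Fin n → Fin 8) :
    2 * cutEdges G c = (Finset.univ.filter (fun p : Fin n × Fin n =>
      G.Adj p.1 p.2 ∧ c p.1 ≠ c p.2)).card := by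
  classical
  let H : SimpleGraph (Fin n) :=
    { Adj := fun u v => G.Adj u v ∧ c u ≠ c v
      symm := ⟨fun u v h => ⟨h.1.symm, h.2.symm⟩⟩
      loopless := ⟨fun u h => h.2 rfl⟩ }
  have h1 : {e : Sym2 (Fin n) | ∃ u v : Fin n, e = s(u, v) ∧ G.Adj u v ∧ c u ≠ c v} =
      H.edgeSet := by
    ext e
    induction e using Sym2.ind with
    | _ x y =>
      rw [SimpleGraph.mem_edgeSet]
      constructor
      · rintro ⟨u, v, he, h1, h2⟩
        rw [Sym2.eq_iff] at he
        rcases he with ⟨rfl, rfl⟩ | ⟨rfl, rfl⟩
        · exact ⟨h1, h2⟩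
        · exact ⟨h1.symm, h2.symm⟩
      · rintro ⟨h1, h2⟩
        exact ⟨x, y, rfl, h1, h2⟩
  have h2 := SimpleGraph.two_mul_card_edgeFinset H
  rw [cutEdges, h1, ← SimpleGraph.coe_edgeFinset, Set.ncard_coe_finset, h2]

/-- For every `N ≥ 1` there is a 7-connected graph on `n = 12 N` vertices, with `m` edges, such that
every 8-partite subgraph has at most `(7/8) m + (7/16) n - n/96` edges. -/
theorem result : ∀ N : ℕ, 1 ≤ N → ∃ G : SimpleGraph (Fin (N * 12)), KConnected 7 G ∧
    (maxCut 8 G : ℝ) ≤
      7 / 8 * (edges G : ℝ) + 7 / 16 * ((N * 12 : ℕ) : ℝ) - ((N * 12 : ℕ) : ℝ) / 96 := by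
  classical
  intro N hN
  refine ⟨blockPath N, ⟨?_, ?_⟩, ?_⟩
  · rw [Fintype.card_fin]; omega
  · intro S hS
    have hset : {v : Fin (N * 12) | v ∉ S} = ((S : Set (Fin (N * 12)))ᶜ) := by
      ext v; simp
    rw [hset]
    exact conn N hN S (by omega)
  · obtain ⟨c, -, hc⟩ := Finset.exists_mem_eq_sup (Finset.univ : Finset (Fin (N * 12) → Fin 8))
      Finset.univ_nonempty (fun c => cutEdges (blockPath N) c)
    rw [maxCut, hc]
    have h0 := two_cut (blockPath N) c
    have hm : 2 * (blockPath N).edgeSet.ncard =
        (Finset.univ.filter (fun p : Fin (N * 12) × Fin (N * 12) =>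
          (blockPath N).Adj p.1 p.2)).card := by
      rw [← SimpleGraph.coe_edgeFinset, Set.ncard_coe_finset, SimpleGraph.two_mul_card_edgeFinset]
    have hsplit : (Finset.univ.filter (fun p : Fin (N * 12) × Fin (N * 12) =>
          (blockPath N).Adj p.1 p.2 ∧ c p.1 = c p.2)).card +
        (Finset.univ.filter (fun p : Fin (N * 12) × Fin (N * 12) =>
          (blockPath N).Adj p.1 p.2 ∧ c p.1 ≠ c p.2)).card =
        (Finset.univ.filter (fun p : Fin (N * 12) × Fin (N * 12) =>
          (blockPath N).Adj p.1 p.2)).card := by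
      rw [← Finset.card_filter_add_card_filter_not (s := Finset.univ.filter
        (fun p : Fin (N * 12) × Fin (N * 12) => (blockPath N).Adj p.1 p.2))
        (fun p => c p.1 = c p.2), Finset.filter_filter, Finset.filter_filter]
    have h1 := pairs_le N
    have h2 := mono_ge N c
    set m := (blockPath N).edgeSet.ncard with hmdef
    set P := (Finset.univ.filter (fun p : Fin (N * 12) × Fin (N * 12) =>
          (blockPath N).Adj p.1 p.2)).card with hP
    set M := (Finset.univ.filter (fun p : Fin (N * 12) × Fin (N * 12) =>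
          (blockPath N).Adj p.1 p.2 ∧ c p.1 = c p.2)).card with hM
    set K := (Finset.univ.filter (fun p : Fin (N * 12) × Fin (N * 12) =>
          (blockPath N).Adj p.1 p.2 ∧ c p.1 ≠ c p.2)).card with hK
    have e0 : 2 * (cutEdges (blockPath N) c : ℝ) = (K : ℝ) := by exact_mod_cast h0
    have e1 : 2 * (edges (blockPath N) : ℝ) = (P : ℝ) := by exact_mod_cast hm
    have e2 : (M : ℝ) + (K : ℝ) = (P : ℝ) := by exact_mod_cast hsplit
    have e3 : (P : ℝ) ≤ 146 * (N : ℝ) := by exact_mod_cast h1
    have e4 : 8 * (N : ℝ) ≤ (M : ℝ) := by exact_mod_cast h2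
    push_cast
    linarith

end Pool.Agent.Results.MP_1d7c98_co.CliqueChain
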